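import Pool.Agent.H71.Pet2

namespace Pool.Agent.Results.MP_7f6035_co.CrossProd

open Pool.Agent.H71.Pet

theorem result (r : ℕ) (m : Fin r → ℕ) (hm : ∀ f, 1 ≤ m f) :
    Acoptic (∀ f, Cross (m f)) (∑ f, m f) :=
  acoptic_prod r m hm

end Pool.Agent.Results.MP_7f6035_co.CrossProd
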