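import Pool.Agent.H71.Pet5

namespace Pool.Agent.Results.MP_7f6035_co.Prism

open Pool.Agent.H71.Pet

theorem result : ¬ Acoptic (Cross 1 × Oct) 3 := not_acoptic_prism

end Pool.Agent.Results.MP_7f6035_co.Prism
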